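import Pool.Agent.Q161.ESV.Stm2
import Pool.Agent.Q124.ESN.RELG

/-! Project ESV (helper161), job LCA: the parities and the types of the Kummer data of a Selmer element. -/

set_option autoImplicit false

namespace Pool.Agent.Q187.ESV

open NumberField IsDedekindDomain Finset Pool.Agent.Q161.ESV
open Pool.Agent.Q51.EL (Abv Par)
open Pool.Agent.Q161.ESN (iO Fb Mv SqF)
open Pool.Agent.Q124.ESN (val_mv not_mem_of_abv)

/-- linear forms separate the elements of a group killed by 2 -/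
theorem sep {V : Type} [AddCommGroup V] (h2 : ∀ v : V, v + v = 0) (v : V)
    (h : ∀ χ : V →+ ZMod 2, χ v = 0) : v = 0 := by
  letI : Module (ZMod 2) V := AddCommGroup.zmodModule (n := 2) (fun v => by rw [two_nsmul]; exact h2 v)
  refine (Module.forall_dual_apply_eq_zero_iff (ZMod 2) v).1 fun f => ?_
  exact h f.toAddMonoidHom

theorem val_one_of_not_mem {K : Type} [Field K] [NumberField K] {w : HeightOneSpectrum (𝓞 K)}
    {x : 𝓞 K} (hx : x ∉ w.asIdeal) : w.valuation K (x : K) = 1 := by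
  have h1 := w.valuation_of_algebraMap (K := K) x
  have h2 : w.intValuation x = 1 := by
    by_contra h
    have h3 : w.intValuation x < 1 := lt_of_le_of_ne (w.intValuation_le_one x) h
    have h4 := (w.intValuation_lt_one_iff_mem x).1 h3
    exact hx h4
  rw [h2] at h1
  exact h1

theorem fb_mv {F K : Type} [Field F] [NumberField F] [Field K] [NumberField K] [Algebra F K]
    {w : HeightOneSpectrum (𝓞 K)} {l : ℕ} (hl : l.Prime) {φ : K ≃ₐ[F] K} (h : Fb w l φ) :
    Mv φ w w := by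
  intro x y hxy
  have h1 := h x y hxy
  constructor
  · intro hx
    have h2 : x ^ l ∈ w.asIdeal := Ideal.pow_mem_of_mem _ hx l hl.pos
    have h3 := w.asIdeal.add_mem h1 h2
    rwa [sub_add_cancel] at h3
  · intro hy
    have h2 : x ^ l ∈ w.asIdeal := by
      have h3 := w.asIdeal.sub_mem hy h1
      rwa [sub_sub_cancel] at h3
    exact w.isPrime.mem_of_pow_mem l h2

theorem lca (hCHI : S_CHI) (hEXI : S_EXI) (hLCT : S_LCT) : S_LCA := by
  intro F K _ _ _ _ _ _ W _ _ V _ _ _ e i hAdm hSt h2V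
  obtain ⟨Be, hBe0, hBe⟩ := hEXI F K e
  obtain ⟨Bt, hBt0, hBt⟩ := hLCT F K W V e i hAdm hSt h2V
  obtain ⟨Bu, hBu0, hBu⟩ := hAdm.unr
  refine ⟨2 * Be * Bt * Bu, by positivity, ?_⟩
  intro B hdvd hB0 D hD c hc hcc Δ hKum
  have hd2 : 2 ∣ B := (((Dvd.intro _ rfl : 2 ∣ 2 * Be).mul_right Bt).mul_right Bu).trans hdvd
  have hde : Be ∣ B := (((Dvd.intro_left 2 rfl : Be ∣ 2 * Be).mul_right Bt).mul_right Bu).trans hdvd
  have hdt : Bt ∣ B := ((Dvd.intro_left (2 * Be) rfl : Bt ∣ 2 * Be * Bt).mul_right Bu).trans hdvd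
  have hdu : Bu ∣ B := (Dvd.intro_left (2 * Be * Bt) rfl : Bu ∣ 2 * Be * Bt * Bu).trans hdvd
  refine ⟨hKum.ne, hKum.eqv, hD, ?_, ?_⟩
  · -- even
    intro l hl hlB w hw hDw χ
    haveI : Fact l.Prime := ⟨hl⟩
    have hle : ¬ l ∣ Be := fun h => hlB (h.trans hde)
    have hl2 : ¬ l ∣ 2 := fun h => hlB (h.trans hd2)
    have hlu : ¬ l ∣ Bu := fun h => hlB (h.trans hdu)
    obtain ⟨ψ, hψ⟩ := hBe l hle w hw
    -- the character is trivial on inertia
    have hnD : ‖ψ (algebraMap F (AlgebraicClosure F) (D : F))‖ = 1 := by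
      have h1 : w.valuation K ((iO F K D : 𝓞 K) : K) = 1 := val_one_of_not_mem hDw
      have h2 : ((iO F K D : 𝓞 K) : K) = algebraMap F K (D : F) := rfl
      rw [h2] at h1
      have h3 := hψ.nm (algebraMap F K (D : F)) 0 (by rw [h1]; rfl)
      rw [AlgHom.commutes, neg_zero, zpow_zero] at h3
      exact h3
    have hn2 : ‖(2 : PadicAlgCl l)‖ = 1 := by
      have h0 : ((2 : ℕ) : 𝓞 K) ∉ w.asIdeal := not_mem_of_abv hl hw hl2
      have h1 : w.valuation K (((2 : ℕ) : 𝓞 K) : K) = 1 := val_one_of_not_mem h0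
      have h2 : ((((2 : ℕ) : 𝓞 K)) : K) = 2 :=
        (map_natCast (algebraMap (𝓞 K) K) 2).trans (by norm_num)
      rw [h2] at h1
      have h3 := hψ.nm 2 0 (by rw [h1]; rfl)
      rw [map_ofNat, map_ofNat, neg_zero, zpow_zero] at h3
      exact h3
    obtain ⟨s0, hs0⟩ := IsAlgClosed.exists_pow_nat_eq (algebraMap F (AlgebraicClosure F) (D : F))
      (n := 2) (by norm_num)
    have hchi : ∀ σ ∈ Ine ψ, chi (D : F) σ = 1 := by
      rintro σ ⟨τ, hτ, hτ'⟩
      rcases ((hCHI F).1 (D : F)).1 σ with h | h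
      · exact h
      · exfalso
        have h1 := ((hCHI F).1 (D : F)).2.2.1 σ s0 hs0
        rw [h, neg_smul, one_smul] at h1
        have h2 : ‖ψ s0‖ = 1 := by
          have h3 : ‖ψ s0‖ ^ 2 = 1 := by
            rw [← norm_pow, ← map_pow, hs0, hnD]
          exact (pow_eq_one_iff_of_nonneg (norm_nonneg _) (by norm_num)).1 h3
        have h3 := hτ' (ψ s0) h2.le
        rw [hτ s0, h1, map_neg] at h3
        have h4 : -ψ s0 - ψ s0 = -(2 * ψ s0) := by ring
        rw [h4, norm_neg, norm_mul, hn2, h2] at h3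
        norm_num at h3
    obtain ⟨P, hP⟩ := hc.2.ine l hlB ψ
    have hc0 : ∀ σ ∈ Ine ψ, c σ = 0 := by
      intro σ hσ
      rw [hP σ hσ]
      show chi (D : F) σ • σ • P - P = 0
      rw [hchi σ hσ, hBu l hlu ψ σ hσ, one_smul, sub_self]
    -- the parity
    have hne : w.valuation K (Δ χ) ≠ 0 := (Valuation.ne_zero_iff _).2 (hKum.ne χ)
    have hlog := WithZero.exp_log hne
    rcases Int.even_or_odd' (WithZero.log (w.valuation K (Δ χ))) with ⟨k, hk | hk⟩
    · exact ⟨k, by rw [zero_add, ← hk, hlog]⟩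
    · exfalso
      have hpar : Par w (Δ χ) 1 := ⟨k, by rw [add_comm 1, ← hk, hlog]⟩
      obtain ⟨s, hs⟩ := IsAlgClosed.exists_pow_nat_eq (e (Δ χ)) (n := 2) (by norm_num)
      obtain ⟨σ, hσ, hR, hσs⟩ := hψ.ram (Δ χ) hpar s hs
      have htw : tw (1 : K ≃ₐ[F] K) χ = χ := by
        ext v
        show χ ((1 : K ≃ₐ[F] K) • v) = χ v
        rw [one_smul]
      have h1 := hKum.gal χ σ 1 hR htw 0 (by rw [map_zero, hc0 σ hσ]) s hs
      rw [map_zero, if_neg (by decide)] at h1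
      have h2 : s = 0 := self_eq_neg.1 (h1.symm.trans hσs)
      rw [h2] at hs
      have h3 : e (Δ χ) = 0 := by rw [← hs]; norm_num
      exact hKum.ne χ ((map_eq_zero e).1 h3)
  · -- odd
    intro l hl hlB w hw hDw
    haveI : Fact l.Prime := ⟨hl⟩
    have hle : ¬ l ∣ Be := fun h => hlB (h.trans hde)
    obtain ⟨ψ, hψ⟩ := hBe l hle w hw
    obtain ⟨hram, hT⟩ := hBt B hdt hB0 D hD c hcc Δ hKum l hlB w hw hDw ψ hψ
    obtain ⟨P, hP⟩ := hc.2.dec l hlB ψ hram
    obtain ⟨v, _, hv⟩ := hT P hP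
    refine ⟨v, hv, fun φ hφ => ?_⟩
    have hz : φ • v - v = 0 := by
      refine sep h2V _ fun χ => ?_
      rw [map_sub, sub_eq_zero]
      have hmv := fb_mv hl hφ
      obtain ⟨k1, h1⟩ := hv χ
      obtain ⟨k2, h2⟩ := hv (tw φ χ)
      have h3 := val_mv hmv (Δ (tw φ χ))
      rw [hKum.eqv φ χ, h1, h2, WithZero.exp_inj] at h3
      have e1 : (tw φ χ) v = χ (φ • v) := rfl
      rw [e1] at h3
      have key : ∀ a b : ZMod 2, (∃ k1 k2 : ℤ, (a.val : ℤ) + 2 * k1 = (b.val : ℤ) + 2 * k2) → b = a := by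
        rintro a b ⟨k1, k2, h⟩
        have ha := ZMod.val_lt a
        have hb := ZMod.val_lt b
        apply ZMod.val_injective
        omega
      exact key _ _ ⟨k1, k2, h3⟩
    exact sub_eq_zero.1 hz

end Pool.Agent.Q187.ESV
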